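import Pool.Agent.helper50.PHN.Spec

/-!
# MP_f10000_nt, row phn:CLA: the density of a class in a fibre
-/

set_option autoImplicit false

namespace Pool.Agent.PHN

open Finset

theorem CLA_count (Q r u : ℕ) (y : ℤ) (hr : 0 < r) (hrQ : r ∣ Q) (hc : IsCoprime (u : ℤ) (r : ℤ)) :
    ((range Q).filter fun t : ℕ => (r : ℤ) ∣ y + t * u).card = Q / r := by
  obtain ⟨α, β, hαβ⟩ := hc
  have hr' : (0 : ℤ) < (r : ℤ) := by exact_mod_cast hr
  set s : ℤ := (-(y * α)) % (r : ℤ) with hs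
  have hs0 : 0 ≤ s := Int.emod_nonneg _ hr'.ne'
  obtain ⟨t₀, ht₀⟩ := Int.eq_ofNat_of_zero_le hs0
  have h1 : (r : ℤ) ∣ s - (-(y * α)) := by
    rw [hs]
    exact (Int.dvd_iff_emod_eq_zero).2 (by rw [Int.sub_emod, Int.emod_emod_of_dvd _ (dvd_refl _)]; simp)
  have h2 : (r : ℤ) ∣ y + (t₀ : ℤ) * u := by
    have h3 : y + (t₀ : ℤ) * u = (s - (-(y * α))) * u + y * β * r := by
      rw [← ht₀]
      linear_combination (-y) * hαβ
    rw [h3]
    exact dvd_add (Dvd.dvd.mul_right h1 _) (Dvd.intro_left _ rfl)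
  have h4 : ∀ t : ℕ, (r : ℤ) ∣ y + t * u ↔ t ≡ t₀ [MOD r] := by
    intro t
    rw [Nat.modEq_iff_dvd]
    have h5 : (y + (t₀ : ℤ) * u) - (y + t * u) = ((t₀ : ℤ) - t) * u := by ring
    constructor
    · intro h
      have h6 : (r : ℤ) ∣ ((t₀ : ℤ) - t) * u := by
        rw [← h5]
        exact dvd_sub h2 h
      exact (IsCoprime.symm ⟨α, β, hαβ⟩).dvd_of_dvd_mul_right h6
    · intro h
      have h6 : y + t * u = (y + (t₀ : ℤ) * u) - ((t₀ : ℤ) - t) * u := by ring
      rw [h6]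
      exact dvd_sub h2 (Dvd.dvd.mul_right h _)
  have h7 : ((range Q).filter fun t : ℕ => (r : ℤ) ∣ y + t * u) = (range Q).filter fun t => t ≡ t₀ [MOD r] := by
    apply Finset.filter_congr
    intro t _
    exact h4 t
  rw [h7, ← Nat.count_eq_card_filter_range, Nat.count_modEq_card _ hr]
  have h8 : Q % r = 0 := Nat.mod_eq_zero_of_dvd hrQ
  simp [h8]

theorem CLA : CLA_stmt := by
  intro T q n' j a x hT hq hn hd
  have hT0 : T ≠ 0 := by omega
  set v := T.factorization q with hv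
  have hqv : q ^ v ∣ T := Nat.ordProj_dvd T q
  have hQu : q ^ v * uu T q = T := by
    unfold uu
    exact Nat.mul_div_cancel' hqv
  have hqpos : 0 < q := hq.pos
  have hcop : Nat.Coprime n' q := (Nat.coprime_comm.1 ((Nat.Prime.coprime_iff_not_dvd hq).2 hn))
  have hnu : n' ∣ uu T q := by
    have h1 : n' ∣ q ^ v * uu T q := by
      rw [hQu]
      exact dvd_trans (Dvd.intro _ rfl) hd
    exact (Nat.Coprime.pow_right v hcop).dvd_of_dvd_mul_left h1
  have hjv : q ^ j ∣ q ^ v := by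
    have h1 : q ^ j ∣ T := dvd_trans (Dvd.intro_left _ rfl) hd
    exact Nat.pow_dvd_pow q ((hq.pow_dvd_iff_le_factorization hT0).1 h1)
  have hjle : j ≤ v := by
    have h1 : q ^ j ∣ T := dvd_trans (Dvd.intro_left _ rfl) hd
    exact (hq.pow_dvd_iff_le_factorization hT0).1 h1
  have huq : Nat.Coprime (uu T q) q := by
    unfold uu
    exact (Nat.coprime_ordCompl hq hT0).symm
  have hucop : IsCoprime ((uu T q : ℕ) : ℤ) ((q ^ j : ℕ) : ℤ) := by
    rw [Nat.isCoprime_iff_coprime]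
    exact Nat.Coprime.pow_right j huq
  have hq0 : (q : ℝ) ≠ 0 := by exact_mod_cast hqpos.ne'
  unfold AV
  have hkey : ∀ t : ℕ, ind (n' * q ^ j) a (x + t * (uu T q : ℕ)) =
      if (n' : ℤ) ∣ x + a then (if ((q ^ j : ℕ) : ℤ) ∣ (x + a) + t * (uu T q : ℕ) then (1 : ℝ) else 0) else 0 := by
    intro t
    have h1 : (((n' * q ^ j : ℕ) : ℤ) ∣ x + t * (uu T q : ℕ) + a) ↔
        ((n' : ℤ) ∣ x + a ∧ ((q ^ j : ℕ) : ℤ) ∣ (x + a) + t * (uu T q : ℕ)) := by
      have h2 : x + t * ((uu T q : ℕ) : ℤ) + a = (x + a) + t * (uu T q : ℕ) := by ring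
      rw [h2]
      have h3 : IsCoprime ((n' : ℕ) : ℤ) ((q ^ j : ℕ) : ℤ) := by
        rw [Nat.isCoprime_iff_coprime]
        exact Nat.Coprime.pow_right j hcop
      have h4 : ((n' : ℕ) : ℤ) ∣ t * ((uu T q : ℕ) : ℤ) :=
        Dvd.dvd.mul_left (Int.natCast_dvd_natCast.2 hnu) _
      constructor
      · intro h
        rw [Nat.cast_mul] at h
        refine ⟨?_, dvd_trans (Dvd.intro_left _ rfl) h⟩
        have h5 : ((n' : ℕ) : ℤ) ∣ (x + a) + t * (uu T q : ℕ) := dvd_trans (Dvd.intro _ rfl) h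
        exact (dvd_add_left h4).1 h5
      · rintro ⟨h5, h6⟩
        rw [Nat.cast_mul]
        exact h3.mul_dvd (dvd_add h5 h4) h6
    unfold ind
    by_cases h5 : (n' : ℤ) ∣ x + a
    · simp only [h1, h5, true_and, if_true]
    · simp only [h1, h5, false_and, if_false]
  rw [Finset.sum_congr rfl (fun t _ => hkey t)]
  by_cases h5 : (n' : ℤ) ∣ x + a
  · simp only [h5, if_true]
    rw [Finset.sum_boole, CLA_count (q ^ v) (q ^ j) (uu T q) (x + a) (Nat.pow_pos hqpos) hjv hucop,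
      Nat.pow_div hjle hqpos]
    unfold ind
    rw [if_pos h5]
    push_cast
    rw [div_eq_div_iff (pow_ne_zero _ hq0) (pow_ne_zero _ hq0), one_mul, ← pow_add]
    congr 1
    omega
  · simp only [h5, if_false, Finset.sum_const_zero, zero_div]
    unfold ind
    rw [if_neg h5, zero_div]

end Pool.Agent.PHN
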